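import Mathlib

set_option autoImplicit false

namespace Pool.Agent.Results.MP_540c93_co.NoFinite

open Finset

/-- `S` is an independent dominating set of `G`. -/
def IsIndepDom {V : Type} (G : SimpleGraph V) (S : Finset V) : Prop :=
  (∀ u ∈ S, ∀ v ∈ S, ¬ G.Adj u v) ∧ ∀ v, v ∉ S → ∃ u ∈ S, G.Adj v u

/-- `S` is an `i`-set of `G`: an independent dominating set of minimum size. -/
def IsISet {V : Type} (G : SimpleGraph V) (S : Finset V) : Prop :=
  IsIndepDom G S ∧ ∀ T, IsIndepDom G T → S.card ≤ T.card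

/-- `Y` arises from `X` by sliding one token along an edge of `G`. -/
def Slide {V : Type} [DecidableEq V] (G : SimpleGraph V) (X Y : Finset V) : Prop :=
  ∃ u ∈ X, ∃ v, v ∉ X ∧ G.Adj u v ∧ Y = insert v (X.erase u)

lemma Slide.symm {V : Type} [DecidableEq V] {G : SimpleGraph V} {X Y : Finset V}
    (h : Slide G X Y) : Slide G Y X := by
  obtain ⟨u, hu, v, hv, huv, rfl⟩ := h
  refine ⟨v, mem_insert_self _ _, u, ?_, huv.symm, ?_⟩
  · simp [huv.ne]
  · rw [erase_insert (fun h => hv (mem_of_mem_erase h)), insert_erase hu]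

lemma Slide.irrefl {V : Type} [DecidableEq V] {G : SimpleGraph V} {X : Finset V} :
    ¬ Slide G X X := by
  rintro ⟨u, -, v, hv, -, h⟩
  exact hv (h ▸ mem_insert_self _ _)

/-- The `i`-graph of `G`: its vertices are the `i`-sets, adjacent when related by a token slide. -/
def iGraph {V : Type} [DecidableEq V] (G : SimpleGraph V) : SimpleGraph {S : Finset V // IsISet G S} where
  Adj X Y := Slide G X.1 Y.1
  symm := ⟨fun _ _ h => h.symm⟩
  loopless := ⟨fun _ => Slide.irrefl⟩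

/-- `H` is isomorphic to the `i`-graph of some finite graph. -/
def IsIGraph {W : Type} (H : SimpleGraph W) : Prop :=
  ∃ (V : Type) (_ : Fintype V) (_ : DecidableEq V) (G : SimpleGraph V), Nonempty (H ≃g iGraph G)

lemma adj_iff {V : Type} [DecidableEq V] {G : SimpleGraph V} (X Y : {S : Finset V // IsISet G S}) :
    (iGraph G).Adj X Y ↔ (X.1 \ Y.1).card = 1 := by
  constructor
  · rintro ⟨u, hu, v, hv, huv, h⟩
    rw [card_eq_one]
    refine ⟨u, ?_⟩
    rw [h]
    ext a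
    simp only [mem_sdiff, mem_insert, mem_erase, mem_singleton]
    constructor
    · rintro ⟨h1, h2⟩
      by_contra h3
      exact h2 (Or.inr ⟨h3, h1⟩)
    · rintro rfl
      exact ⟨hu, by rintro (h1 | h1); exacts [huv.ne h1, h1.1 rfl]⟩
  · intro h
    have hc : X.1.card = Y.1.card := le_antisymm (X.2.2 _ Y.2.1) (Y.2.2 _ X.2.1)
    have h' : (Y.1 \ X.1).card = 1 := by rw [← h]; exact card_sdiff_comm hc.symm
    obtain ⟨u, hu⟩ := card_eq_one.1 h
    obtain ⟨v, hv⟩ := card_eq_one.1 h'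
    have h1 : ∀ a, a ∈ X.1 ∧ a ∉ Y.1 ↔ a = u := fun a => by rw [← mem_sdiff, hu, mem_singleton]
    have h2 : ∀ a, a ∈ Y.1 ∧ a ∉ X.1 ↔ a = v := fun a => by rw [← mem_sdiff, hv, mem_singleton]
    obtain ⟨x, hx, hvx⟩ := X.2.1.2 v ((h2 v).2 rfl).2
    have h3 : x = u := (h1 x).1 ⟨hx, fun h4 => Y.2.1.1 v ((h2 v).2 rfl).1 x h4 hvx⟩
    refine ⟨u, ((h1 u).2 rfl).1, v, ((h2 v).2 rfl).2, h3 ▸ hvx.symm, ?_⟩
    ext a
    have := h1 a
    have := h2 a
    simp only [mem_insert, mem_erase]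
    tauto

lemma near {V : Type} [DecidableEq V] {G : SimpleGraph V} (X Y : {S : Finset V // IsISet G S})
    (h : (X.1 \ Y.1).card ≤ 1) : X = Y ∨ (iGraph G).Adj X Y := by
  rcases h.eq_or_lt with h | h
  · exact Or.inr ((adj_iff X Y).2 h)
  · left
    have h1 : X.1 ⊆ Y.1 := sdiff_eq_empty_iff_subset.1 (card_eq_zero.1 (by omega))
    exact Subtype.ext (eq_of_subset_of_card_le h1 (Y.2.2 _ X.2.1))

lemma square {V : Type} [DecidableEq V] {G : SimpleGraph V} (X Y Z W : {S : Finset V // IsISet G S})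
    (h1 : (iGraph G).Adj X Y) (h2 : (iGraph G).Adj Y Z) (h4 : (iGraph G).Adj X W)
    (n1 : ¬ (X = Z ∨ (iGraph G).Adj X Z)) (n2 : ¬ (Y = W ∨ (iGraph G).Adj Y W))
    (a : V) (ha : a ∈ X.1) (hb : a ∉ Y.1) : a ∈ W.1 ∧ a ∉ Z.1 := by
  have one : ∀ P Q : {S : Finset V // IsISet G S}, (iGraph G).Adj P Q → ∀ x y, x ∈ P.1 → x ∉ Q.1 →
      y ∈ P.1 → y ∉ Q.1 → x = y := fun P Q h x y a1 a2 a3 a4 =>
    card_le_one.1 ((adj_iff P Q).1 h).le x (mem_sdiff.2 ⟨a1, a2⟩) y (mem_sdiff.2 ⟨a3, a4⟩)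
  constructor
  · by_contra hw
    refine n2 (near Y W (le_trans (card_le_card ?_) ((adj_iff Y X).1 h1.symm).le))
    intro y hy
    obtain ⟨y1, y2⟩ := mem_sdiff.1 hy
    refine mem_sdiff.2 ⟨y1, fun y3 => hb ?_⟩
    rw [one X W h4 a y ha hw y3 y2]; exact y1
  · intro hz
    refine n1 (near X Z (le_trans (card_le_card ?_) ((adj_iff Y Z).1 h2).le))
    intro y hy
    obtain ⟨y1, y2⟩ := mem_sdiff.1 hy
    refine mem_sdiff.2 ⟨?_, y2⟩
    by_contra y3
    exact y2 (one X Y h1 a y ha hb y1 y3 ▸ hz)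

lemma realize {W V : Type} [Fintype V] [DecidableEq V] [Nonempty W] (H : SimpleGraph W)
    (X : W → Finset V) (k : ℕ) (hinj : Function.Injective X) (hk : ∀ w, (X w).card = k)
    (hmax : ∀ w v, v ∉ X w → ∃ u ∈ X w, ∀ w', ¬ (u ∈ X w' ∧ v ∈ X w'))
    (hadj : ∀ w w', H.Adj w w' ↔ (X w \ X w').card = 1) : IsIGraph H := by
  classical
  let B := {C : Finset V // ∀ w, ¬ X w ⊆ C}
  let R : V ⊕ (B × Fin (k + 1)) → V ⊕ (B × Fin (k + 1)) → Prop := fun a b =>
    match a, b with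
    | Sum.inl u, Sum.inl v => ∃ w, u ∈ X w ∧ v ∈ X w
    | Sum.inl u, Sum.inr c => u ∈ c.1.1
    | Sum.inr c, Sum.inl u => u ∈ c.1.1
    | Sum.inr c, Sum.inr d => c.1 = d.1
  have hR : ∀ a b, R a b → R b a := by
    rintro (u | c) (v | d) h
    · obtain ⟨w, h1, h2⟩ := h; exact ⟨w, h2, h1⟩
    · exact h
    · exact h
    · exact h.symm
  let G : SimpleGraph (V ⊕ (B × Fin (k + 1))) :=
    { Adj := fun a b => a ≠ b ∧ ¬ R a b
      symm := ⟨fun a b h => ⟨h.1.symm, fun h' => h.2 (hR _ _ h')⟩⟩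
      loopless := ⟨fun a h => h.1 rfl⟩ }
  have hG : ∀ a b, G.Adj a b ↔ a ≠ b ∧ ¬ R a b := fun _ _ => Iff.rfl
  let Y : W → Finset (V ⊕ (B × Fin (k + 1))) := fun w => (X w).map Function.Embedding.inl
  have hYc : ∀ w, (Y w).card = k := fun w => by simp only [Y, card_map, hk]
  have hYm : ∀ w u, Sum.inl u ∈ Y w ↔ u ∈ X w := fun w u => by simp [Y]
  have hY : ∀ w, IsIndepDom G (Y w) := by
    intro w
    constructor
    · intro a ha b hb h
      obtain ⟨u, hu, rfl⟩ := mem_map.1 ha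
      obtain ⟨v, hv, rfl⟩ := mem_map.1 hb
      exact h.2 ⟨w, hu, hv⟩
    · rintro (v | c) hv
      · obtain ⟨u, hu, h⟩ := hmax w v (fun h => hv ((hYm w v).2 h))
        refine ⟨Sum.inl u, (hYm w u).2 hu, fun h1 => hv (h1 ▸ (hYm w u).2 hu), ?_⟩
        rintro ⟨w', h1, h2⟩
        exact h w' ⟨h2, h1⟩
      · obtain ⟨u, hu, h⟩ := not_subset.1 (c.1.2 w)
        exact ⟨Sum.inl u, (hYm w u).2 hu, Sum.inr_ne_inl, h⟩
  have hT : ∀ T, IsIndepDom G T → k + 1 ≤ T.card ∨ ∃ w, Y w ⊆ T := by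
    intro T hT
    by_cases hc : ∃ c, Sum.inr c ∈ T
    · left
      obtain ⟨c, hc⟩ := hc
      have h1 : ∀ j, Sum.inr (c.1, j) ∈ T := by
        intro j
        by_contra h2
        obtain ⟨b, hb, h3⟩ := hT.2 _ h2
        have h4 := hT.1 _ hc b hb
        rw [hG] at h3 h4
        rcases b with v | d
        · exact h4 ⟨Sum.inr_ne_inl, h3.2⟩
        · exact h4 ⟨fun h5 => h3.2 (show c.1 = d.1 from congrArg Prod.fst (Sum.inr_injective h5)), h3.2⟩
      have h2 := card_le_card_of_injOn (s := univ) (t := T) (fun j : Fin (k + 1) => Sum.inr (c.1, j))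
        (fun j _ => h1 j) (fun i _ j _ h => congrArg Prod.snd (Sum.inr_injective h))
      simpa using h2
    · right
      by_contra hn
      push Not at hc hn
      let C : B := ⟨univ.filter fun v => Sum.inl v ∈ T, fun w h => hn w fun a ha => by
        obtain ⟨u, hu, rfl⟩ := mem_map.1 ha
        exact (mem_filter.1 (h hu)).2⟩
      obtain ⟨b, hb, h3⟩ := hT.2 _ (hc (C, 0))
      rcases b with v | d
      · exact h3.2 (mem_filter.2 ⟨mem_univ _, hb⟩)
      · exact hc d hb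
  have hI : ∀ w, IsISet G (Y w) := fun w => ⟨hY w, fun T h => by
    rcases hT T h with h1 | ⟨w', h1⟩
    · rw [hYc]; omega
    · exact ((hYc w).trans (hYc w').symm).trans_le (card_le_card h1)⟩
  let f : W → {S // IsISet G S} := fun w => ⟨Y w, hI w⟩
  have hf : Function.Bijective f := by
    constructor
    · intro a b h
      exact hinj (map_injective _ (congrArg Subtype.val h))
    · intro T
      obtain ⟨w0⟩ := ‹Nonempty W›
      have h0 := T.2.2 _ (hY w0)
      rw [hYc] at h0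
      rcases hT T.1 T.2.1 with h1 | ⟨w, h1⟩
      · omega
      · exact ⟨w, Subtype.ext (eq_of_subset_of_card_le h1 (by rw [hYc]; exact h0))⟩
  refine ⟨_, inferInstance, inferInstance, G, ⟨⟨Equiv.ofBijective f hf, ?_⟩⟩⟩
  intro a b
  rw [adj_iff, hadj]
  show (Y a \ Y b).card = 1 ↔ _
  simp only [Y]
  rw [← Finset.map_sdiff, card_map]

lemma ladder {W : Type} [Nonempty W] (H : SimpleGraph W) (K : ℕ) (p : W → Fin K) (s : W → Bool)
    (hinj : ∀ a b, p a = p b → s a = s b → a = b)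
    (hadj : ∀ a b, H.Adj a b ↔ ((p a).val = p b ∧ s a ≠ s b) ∨
      (s a = s b ∧ ((p b).val = p a + 1 ∨ (p a).val = p b + 1))) : IsIGraph H := by
  let X : W → Finset (Bool ⊕ Fin (K + 1)) := fun w =>
    {Sum.inl (s w), Sum.inr (p w).castSucc, Sum.inr (p w).succ}
  have m1 : ∀ w t, Sum.inl t ∈ X w ↔ t = s w := fun w t => by simp [X]
  have m2 : ∀ w (q : Fin (K + 1)), Sum.inr q ∈ X w ↔ q.val = p w ∨ q.val = p w + 1 := fun w q => by
    simp [X, Fin.ext_iff]
  have hc : ∀ a b, (X a \ X b).card = (if s a = s b then 0 else 1) +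
      ((if (p a).val = p b ∨ (p a).val = p b + 1 then 0 else 1) +
      (if (p a).val + 1 = p b ∨ (p a).val = p b then 0 else 1)) := by
    intro a b
    rw [sdiff_eq_filter, card_filter]
    simp only [X]
    rw [sum_insert (by simp), sum_insert (by simp [Fin.ext_iff]), sum_singleton]
    simp only [mem_insert, mem_singleton, Sum.inl.injEq, Sum.inr.injEq, reduceCtorEq, or_false, false_or,
      Fin.ext_iff, Fin.val_castSucc, Fin.val_succ, Nat.add_right_cancel_iff, ite_not]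
  refine realize H X 3 ?_ ?_ ?_ ?_
  · intro a b h
    have h1 := hc a b
    rw [h, sdiff_self, bot_eq_empty, card_empty] at h1
    apply hinj
    · apply Fin.ext
      split_ifs at h1 <;> omega
    · by_contra h2
      rw [if_neg h2] at h1
      omega
  · intro w
    simp only [X]
    rw [card_insert_of_notMem (by simp), card_insert_of_notMem (by simp [Fin.ext_iff]), card_singleton]
  · rintro w (t | q) hv
    · refine ⟨Sum.inl (s w), (m1 _ _).2 rfl, fun w' h => hv ?_⟩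
      rw [m1, (m1 _ _).1 h.1, (m1 _ _).1 h.2]
    · rw [m2] at hv
      rcases lt_or_ge q.val (p w).val with h | h
      · refine ⟨Sum.inr (p w).succ, (m2 _ _).2 (Or.inr rfl), fun w' h' => ?_⟩
        rw [m2, m2, Fin.val_succ] at h'
        omega
      · refine ⟨Sum.inr (p w).castSucc, (m2 _ _).2 (Or.inl rfl), fun w' h' => ?_⟩
        rw [m2, m2, Fin.val_castSucc] at h'
        omega
  · intro a b
    rw [hadj, hc]
    by_cases h : s a = s b <;> simp only [h, if_true, if_false, ne_eq, not_true, not_false_iff,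
      and_true, and_false, true_and, false_and, false_or, or_false] <;> split_ifs <;> omega

/-- The Moebius ladder with `N` rungs. -/
def mob (N : ℕ) : SimpleGraph (Fin N × Bool) where
  Adj a b := (a.2 = b.2 ∧ (b.1.val = a.1 + 1 ∨ a.1.val = b.1 + 1)) ∨
    (a.2 ≠ b.2 ∧ (a.1.val = b.1 ∨ (a.1.val + 1 = N ∧ b.1.val = 0) ∨ (b.1.val + 1 = N ∧ a.1.val = 0)))
  symm := ⟨fun a b h => by
    rcases h with ⟨h1, h2⟩ | ⟨h1, h2⟩
    · exact Or.inl ⟨h1.symm, h2.symm⟩
    · exact Or.inr ⟨h1.symm, by omega⟩⟩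
  loopless := ⟨fun a h => by
    rcases h with ⟨-, h2⟩ | ⟨h1, -⟩
    · omega
    · exact h1 rfl⟩

lemma mob_adj {N : ℕ} (a b : Fin N × Bool) : (mob N).Adj a b ↔
    (a.2 = b.2 ∧ (b.1.val = a.1 + 1 ∨ a.1.val = b.1 + 1)) ∨
    (a.2 ≠ b.2 ∧ (a.1.val = b.1 ∨ (a.1.val + 1 = N ∧ b.1.val = 0) ∨ (b.1.val + 1 = N ∧ a.1.val = 0))) :=
  Iff.rfl

lemma mob_not (N : ℕ) : ¬ IsIGraph (mob (N + 3)) := by
  rintro ⟨V, _, _, G, ⟨φ⟩⟩
  have sq : ∀ x y z w, (mob (N + 3)).Adj x y → (mob (N + 3)).Adj y z → (mob (N + 3)).Adj x w →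
      ¬ (x = z ∨ (mob (N + 3)).Adj x z) → ¬ (y = w ∨ (mob (N + 3)).Adj y w) →
      ∀ a, a ∈ (φ x).1 → a ∉ (φ y).1 → a ∈ (φ w).1 ∧ a ∉ (φ z).1 := by
    intro x y z w h1 h2 h3 n1 n2
    refine square _ _ _ _ (φ.map_adj_iff.2 h1) (φ.map_adj_iff.2 h2) (φ.map_adj_iff.2 h3) ?_ ?_
    · rwa [φ.map_adj_iff, φ.injective.eq_iff]
    · rwa [φ.map_adj_iff, φ.injective.eq_iff]
  have h0 : (mob (N + 3)).Adj (0, true) (0, false) := by simp [mob_adj]
  obtain ⟨a, ha⟩ := card_eq_one.1 ((adj_iff _ _).1 (φ.map_adj_iff.2 h0))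
  have ha' := mem_sdiff.1 (ha ▸ mem_singleton_self a)
  have hP : ∀ i (hi : i < N + 3), a ∈ (φ (⟨i, hi⟩, true)).1 ∧ a ∉ (φ (⟨i, hi⟩, false)).1 := by
    intro i
    induction i with
    | zero => intro _; exact ha'
    | succ i ih =>
      intro hi
      obtain ⟨h1, h2⟩ := ih (by omega)
      exact sq (⟨i, by omega⟩, true) (⟨i, by omega⟩, false) _ _ (by simp [mob_adj]) (by simp [mob_adj])
        (by simp [mob_adj]) (by simp [mob_adj]; omega) (by simp [mob_adj]; omega) a h1 h2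
  obtain ⟨h1, h2⟩ := hP (N + 2) (by omega)
  exact ha'.2 (sq (⟨N + 2, by omega⟩, true) (⟨N + 2, by omega⟩, false) (0, true) (0, false)
    (by simp [mob_adj]) (by simp [mob_adj]) (by simp [mob_adj])
    (by simp [mob_adj, Fin.ext_iff]) (by simp [mob_adj, Fin.ext_iff]) a h1 h2).1

lemma small {N m : ℕ} (hm : m < N) [Nonempty (Fin m)] (F : SimpleGraph (Fin m)) (e : F ↪g mob N) :
    IsIGraph F := by
  obtain ⟨r, hr⟩ : ∃ r : Fin N, ∀ x, (e x).1 ≠ r := by
    by_contra hc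
    push Not at hc
    have := Fintype.card_le_of_surjective (fun x => (e x).1) hc
    simp only [Fintype.card_fin] at this
    omega
  have hr' : ∀ x, (e x).1.val ≠ r.val := fun x h => hr x (Fin.ext h)
  refine ladder F (2 * N)
    (fun x => ⟨if r.val < (e x).1.val then (e x).1.val else (e x).1.val + N, by
      have := (e x).1.2
      split_ifs <;> omega⟩)
    (fun x => if r.val < (e x).1.val then (e x).2 else !(e x).2) ?_ ?_
  · intro a b h1 h2
    have := (e a).1.2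
    have := (e b).1.2
    simp only [Fin.mk.injEq] at h1
    apply e.injective
    split_ifs at h1 h2
    · exact Prod.ext (Fin.ext h1) h2
    · omega
    · omega
    · exact Prod.ext (Fin.ext (by omega)) (Bool.not_inj h2)
  · intro a b
    rw [← e.map_adj_iff, mob_adj]
    have := (e a).1.2
    have := (e b).1.2
    have := hr' a
    have := hr' b
    have := r.2
    simp only
    generalize (e a).2 = s
    generalize (e b).2 = t
    split_ifs <;> cases s <;> cases t <;> simp <;> omega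

/-- There is no finite family of forbidden induced subgraphs characterizing the `i`-graphs. -/
theorem result : ¬ ∃ 𝓕 : Set (Σ m : ℕ, SimpleGraph (Fin m)), 𝓕.Finite ∧
    ∀ (W : Type) [Fintype W] [Nonempty W] (H : SimpleGraph W),
      IsIGraph H ↔ ∀ F ∈ 𝓕, IsEmpty (F.2 ↪g H) := by
  rintro ⟨𝓕, hfin, h⟩
  obtain ⟨N, hN⟩ := (hfin.image fun F => F.1).bddAbove
  apply mob_not N
  rw [h]
  intro F hF
  refine ⟨fun e => ?_⟩
  have h1 : F.1 ≤ N := hN ⟨F, hF, rfl⟩
  rcases isEmpty_or_nonempty (Fin F.1) with h2 | h2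
  · have h3 : IsIGraph (⊥ : SimpleGraph Unit) :=
      ladder ⊥ 1 (fun _ => 0) (fun _ => true) (fun _ _ _ _ => rfl) (fun _ _ => by simp)
    exact ((h Unit ⊥).1 h3 F hF).false ⟨⟨isEmptyElim, isEmptyElim⟩, fun {a} => isEmptyElim a⟩
  · exact ((h _ F.2).1 (small (by omega) F.2 e) F hF).false SimpleGraph.Embedding.refl

end Pool.Agent.Results.MP_540c93_co.NoFinite
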